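import Pool.Agent.H49.CL.Targets
import Pool.Agent.H44.FB.Basics

/-!
# Row CNR of cl_modules: canonical copies of names over the first names of a flag
-/

set_option autoImplicit false
set_option linter.unusedVariables false

namespace Pool.Agent.H20.CL.CNR

open Pool.Agent.H68.BP Pool.Agent.H58.SF Pool.Agent.H53.NR
open Pool.Agent.H57.AR (tp ty Ty)
open Pool.Agent.H57.LH (RmV)
open Pool.Agent.H44.KR (HB Tyi TpOn)
open Pool.Agent.H72.CH
open Pool.Agent.H44.FB (EmbC eq_of_tp rel_of_tp comp_of_tp)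
open Pool.Agent.H49.CL
open Function
open Classical

/-- an increasing enumeration -/
theorem enum {N : Type} (J : Finset N) (r : N → ℕ) (hr : Set.InjOn r J) :
    ∃ (n : ℕ) (z : Fin n → N), (∀ i, z i ∈ J) ∧ (∀ p ∈ J, ∃ i, z i = p) ∧
      ∀ i j, r (z i) < r (z j) ↔ i < j := by
  let e := (J.image r).orderIsoOfFin rfl
  have h1 : ∀ i, ∃ p ∈ J, r p = (e i : ℕ) := fun i => Finset.mem_image.1 (e i).2
  choose z hz hrz using h1
  refine ⟨(J.image r).card, z, hz, fun p hp => ?_, fun i j => ?_⟩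
  · refine ⟨e.symm ⟨r p, Finset.mem_image_of_mem r hp⟩, ?_⟩
    apply hr (Finset.mem_coe.2 (hz _)) (Finset.mem_coe.2 hp)
    rw [hrz, OrderIso.apply_symm_apply]
  · rw [hrz, hrz]
    exact (Subtype.coe_lt_coe.trans e.lt_iff_lt)

/-- embeddings which move given names to the first `h` names of `π` -/
theorem embs {N : Type} {δ : Sig} {𝔻 : Str δ N} {m : ℕ} (hE : EmbC 𝔻) (π : Fin m → N) (h : ℕ) :
    ∃ al : ({i : Fin m // (i : ℕ) < h} → N) → N → N,
      (∀ t (J : Type) (a : J → N), tp 𝔻 (fun j => al t (a j)) = tp 𝔻 a) ∧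
      ∀ t, tp 𝔻 t = tp 𝔻 (fun i : {i : Fin m // (i : ℕ) < h} => π i.1) →
        ∀ i, al t (t i) = π i.1 := by
  have h1 : ∀ t : {i : Fin m // (i : ℕ) < h} → N, ∃ g : N → N,
      (∀ (J : Type) (a : J → N), tp 𝔻 (fun j => g (a j)) = tp 𝔻 a) ∧
      (tp 𝔻 t = tp 𝔻 (fun i : {i : Fin m // (i : ℕ) < h} => π i.1) → ∀ i, g (t i) = π i.1) := by
    intro t
    by_cases ht : tp 𝔻 t = tp 𝔻 (fun i : {i : Fin m // (i : ℕ) < h} => π i.1)
    · obtain ⟨g, hg1, hg2⟩ := hE _ t (fun i : {i : Fin m // (i : ℕ) < h} => π i.1) ht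
      exact ⟨g, hg1, fun _ => hg2⟩
    · exact ⟨id, fun _ _ => rfl, fun h => absurd h ht⟩
  choose al h2 h3 using h1
  exact ⟨al, h2, h3⟩

theorem pf_CNR : T_CNR := by
  intro N δ 𝔻 m st hN hR hE hZ V lv hpl ψ π h J
  obtain ⟨p₀⟩ := hN
  obtain ⟨al, hal, hal'⟩ := embs hE π.1 h
  obtain ⟨J₁, hJ₁⟩ : ∃ J₁ : Finset N, J₁ = insert p₀ (J ∪ Finset.univ.image π.1) := ⟨_, rfl⟩
  obtain ⟨J', r, hJ, hr, hpath⟩ := hZ J₁
  obtain ⟨n, z, hzJ, hzs, hzlt⟩ := enum J' r hr
  have hp₀ : p₀ ∈ J' := hJ (by rw [hJ₁]; exact Finset.mem_insert_self _ _)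
  have hJ1 : ∀ p ∈ J, p ∈ J₁ := fun p hp => by
    rw [hJ₁]
    exact Finset.mem_insert_of_mem (Finset.mem_union_left _ hp)
  have hJJ : ∀ p ∈ J, p ∈ J' := fun p hp => hJ (hJ1 p hp)
  have hπJ : ∀ i, π.1 i ∈ J' := fun i => hJ (by
    rw [hJ₁]
    exact Finset.mem_insert_of_mem (Finset.mem_union_right _
      (Finset.mem_image_of_mem _ (Finset.mem_univ i))))
  obtain ⟨i₀, -⟩ := hzs p₀ hp₀
  have hzi : Injective z := by
    intro i j hij
    by_contra hne
    rcases lt_or_gt_of_ne hne with h | h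
    · have h1 := (hzlt i j).2 h
      rw [hij] at h1
      exact lt_irrefl _ h1
    · have h1 := (hzlt j i).2 h
      rw [hij] at h1
      exact lt_irrefl _ h1
  obtain ⟨ix, hix⟩ : ∃ ix : N → Fin n, ∀ p ∈ J', z (ix p) = p := by
    refine ⟨fun p => if h : ∃ i, z i = p then h.choose else i₀, fun p hp => ?_⟩
    have h : ∃ i, z i = p := hzs p hp
    show z (if h : ∃ i, z i = p then h.choose else i₀) = p
    rw [dif_pos h]
    exact h.choose_spec
  obtain ⟨K, e, hKe⟩ := hR n (m + m) (Fin (m + 1)) z hzi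
  obtain ⟨φ₀, htp, hcol⟩ := hKe fun α =>
    ⟨lv (ψ fun i => al (fun i => e (α (Fin.castAdd m i.1))) (e (α (Fin.castAdd m i))))
        (ψ fun i => al (fun i => e (α (Fin.castAdd m i.1))) (e (α (Fin.natAdd m i)))),
      Nat.lt_succ_of_le (hpl.le _ _)⟩
  obtain ⟨t₀, ht₀⟩ : ∃ t₀ : {i : Fin m // (i : ℕ) < h} → N,
      t₀ = fun i => e (φ₀ (ix (π.1 i.1))) := ⟨_, rfl⟩
  have htt : tp 𝔻 t₀ = tp 𝔻 (fun i : {i : Fin m // (i : ℕ) < h} => π.1 i.1) := by
    have h1 := comp_of_tp htp (fun i : {i : Fin m // (i : ℕ) < h} => ix (π.1 i.1))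
    have h2 : (fun i : {i : Fin m // (i : ℕ) < h} => z (ix (π.1 i.1))) =
        fun i => π.1 i.1 := funext fun i => hix _ (hπJ _)
    rw [h2] at h1
    rw [ht₀]
    exact h1
  obtain ⟨φ, hφ⟩ : ∃ φ : N → N, ∀ p, φ p = al t₀ (e (φ₀ (ix p))) := ⟨fun p => _, fun p => rfl⟩
  have hval : ∀ x v a b : Fin m → N, (∀ i, x i ∈ J') → (∀ i, v i ∈ J') → (∀ i, a i ∈ J') →
      (∀ i, b i ∈ J') → Agr h π.1 x → Agr h π.1 a → Ote 𝔻 r x v a b →
      lv (ψ fun i => φ (x i)) (ψ fun i => φ (v i)) =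
        lv (ψ fun i => φ (a i)) (ψ fun i => φ (b i)) := by
    intro x v a b hx hv ha hb hπx hπa ho
    have hz1 : ∀ (x v : Fin m → N), (∀ i, x i ∈ J') → (∀ i, v i ∈ J') →
        ∀ q : Fin (m + m), z (ix (Sum.elim x v (finSumFinEquiv.symm q))) =
          Sum.elim x v (finSumFinEquiv.symm q) := by
      intro x v hx hv q
      apply hix
      rcases finSumFinEquiv.symm q with i | i
      · exact hx i
      · exact hv i
    have h1 := hcol (fun q => ix (Sum.elim x v (finSumFinEquiv.symm q)))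
      (fun q => ix (Sum.elim a b (finSumFinEquiv.symm q))) (by
        have h2 : (fun q => z (ix (Sum.elim x v (finSumFinEquiv.symm q)))) =
            fun q => Sum.elim x v (finSumFinEquiv.symm q) := funext (hz1 x v hx hv)
        have h3 : (fun q => z (ix (Sum.elim a b (finSumFinEquiv.symm q)))) =
            fun q => Sum.elim a b (finSumFinEquiv.symm q) := funext (hz1 a b ha hb)
        rw [h2, h3]
        exact congrArg Prod.snd (comp_of_tp ho.1 fun q : Fin (m + m) => finSumFinEquiv.symm q))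
      (fun i j => by
        rw [← hzlt, ← hzlt, hz1 x v hx hv, hz1 x v hx hv, hz1 a b ha hb, hz1 a b ha hb]
        exact ho.2 _ _)
    have h4 := congrArg (fun t : Fin (m + 1) => (t : ℕ)) h1
    simp only [finSumFinEquiv_symm_apply_castAdd, finSumFinEquiv_symm_apply_natAdd,
      Sum.elim_inl, Sum.elim_inr] at h4
    have h5 : ∀ x : Fin m → N, Agr h π.1 x →
        (fun i : {i : Fin m // (i : ℕ) < h} => e (φ₀ (ix (x i.1)))) = t₀ := by
      intro x hx
      rw [ht₀]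
      funext i
      rw [hx i.1 i.2]
    rw [h5 x hπx, h5 a hπa] at h4
    simp only [hφ]
    exact h4
  have hmain : ∀ (l : ℕ) (a b c d : Fl st), (∀ i, a.1 i ∈ J ∧ b.1 i ∈ J ∧ c.1 i ∈ J ∧
      d.1 i ∈ J) → Agr h π.1 a.1 → Agr h π.1 b.1 → Agr h π.1 c.1 → Agr h π.1 d.1 → h ≤ m →
      l ≤ m → (∀ i : Fin m, a.1 i = b.1 i ↔ (i : ℕ) < l) → Agr l c.1 d.1 →
      lv (ψ fun i => φ (a.1 i)) (ψ fun i => φ (b.1 i)) ≤
        lv (ψ fun i => φ (c.1 i)) (ψ fun i => φ (d.1 i)) := by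
    intro l a b c d hm hπa hπb hπc hπd hhm hl hab hcd
    have hhl : h ≤ l := by
      by_contra hc
      push Not at hc
      have h1 := (hab ⟨l, by omega⟩).1 ((hπa ⟨l, by omega⟩ hc).symm.trans (hπb ⟨l, by omega⟩ hc))
      exact lt_irrefl _ h1
    obtain ⟨L, x, v, hx0, hxL, hxJ, hvJ, hxv⟩ := hpath l a b c d
      (fun i => ⟨hJ1 _ (hm i).1, hJ1 _ (hm i).2.1, hJ1 _ (hm i).2.2.1, hJ1 _ (hm i).2.2.2⟩)
      hl hab hcd
    have haJ : ∀ i, a.1 i ∈ J' := fun i => hJJ _ (hm i).1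
    have hbJ : ∀ i, b.1 i ∈ J' := fun i => hJJ _ (hm i).2.1
    have hag : ∀ x v : Fin m → N, Ote 𝔻 r x v a.1 b.1 → Agr l x v := by
      intro x v ho i hi
      have h1 := (eq_of_tp ho.1 (Sum.inl i) (Sum.inr i)).2 ((hab i).2 hi)
      exact h1
    have hxπ : ∀ (k : ℕ) (hk : k < L + 1), Agr h π.1 (x ⟨k, hk⟩).1 := by
      intro k
      induction k with
      | zero =>
        intro hk
        have h1 : x ⟨0, hk⟩ = c := hx0
        rw [h1]
        exact hπc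
      | succ k ih =>
        intro hk i hi
        have hk' : k < L := Nat.lt_of_succ_lt_succ hk
        have h1 := ih (Nat.lt_succ_of_lt hk') i hi
        have h2 := hag _ _ (hxv ⟨k, hk'⟩).1 i (by omega)
        have h3 := hag _ _ (hxv ⟨k, hk'⟩).2 i (by omega)
        exact h1.trans (h2.trans h3.symm)
    have hk : ∀ (k : ℕ) (hk : k < L + 1),
        lv (ψ fun i => φ (a.1 i)) (ψ fun i => φ (b.1 i)) ≤
          lv (ψ fun i => φ (c.1 i)) (ψ fun i => φ ((x ⟨k, hk⟩).1 i)) := by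
      intro k
      induction k with
      | zero =>
        intro hk
        have h1 : x ⟨0, hk⟩ = c := hx0
        rw [h1, hpl.self]
        exact hpl.le _ _
      | succ k ih =>
        intro hk
        have hk' : k < L := Nat.lt_of_succ_lt_succ hk
        have h1 := ih (Nat.lt_succ_of_lt hk')
        have h2 := hval _ _ _ _ (hxJ (⟨k, hk'⟩ : Fin L).castSucc) (hvJ ⟨k, hk'⟩) haJ hbJ
          (hxπ k (Nat.lt_succ_of_lt hk')) hπa (hxv ⟨k, hk'⟩).1
        have h3 := hval _ _ _ _ (hxJ (⟨k, hk'⟩ : Fin L).succ) (hvJ ⟨k, hk'⟩) haJ hbJ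
          (hxπ (k + 1) hk) hπa (hxv ⟨k, hk'⟩).2
        have h4 := (le_min h1 h2.ge).trans (hpl.ult _ _ _)
        rw [hpl.sym] at h3
        exact (le_min h4 h3.ge).trans (hpl.ult _ _ _)
    have h5 := hk L (Nat.lt_succ_self L)
    have h6 : x ⟨L, Nat.lt_succ_self L⟩ = d := hxL
    rw [h6] at h5
    exact h5
  have hid : tp 𝔻 (fun p : N => al t₀ p) = tp 𝔻 (fun p : N => p) := hal t₀ N (fun p => p)
  refine ⟨φ, ⟨fun p hp q hq => ?_, fun l w hw => ?_⟩, fun i hi hiJ => ?_, hmain⟩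
  · have h1 := eq_of_tp htp (ix p) (ix q)
    rw [hix p (hJJ p hp), hix q (hJJ q hq)] at h1
    rw [hφ, hφ]
    exact (h1.symm.trans (eq_of_tp hid (e (φ₀ (ix p))) (e (φ₀ (ix q)))).symm)
  · have h1 := rel_of_tp htp l fun i => ix (w i)
    have h2 : (fun i => z (ix (w i))) = fun i => id (w i) := funext fun i => hix _ (hJJ _ (hw i))
    rw [h2] at h1
    have h3 : (fun i => φ (w i)) = fun i => al t₀ (e (φ₀ (ix (w i)))) := funext fun i => hφ _
    rw [h3]
    exact (h1.symm.trans (rel_of_tp hid l fun i => e (φ₀ (ix (w i)))).symm)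
  · rw [hφ]
    have h1 := hal' t₀ htt ⟨i, hi⟩
    rw [ht₀] at h1 ⊢
    exact h1

end Pool.Agent.H20.CL.CNR

namespace Pool.Agent.H20.CL

/-- Row CNR. -/
theorem pf_CNR : Pool.Agent.H49.CL.T_CNR := CNR.pf_CNR

end Pool.Agent.H20.CL
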