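import Pool.Agent.H49.CL.Targets
import Pool.Agent.H57.CN.Basics

/-!
# Row INH of cl_modules: from outside a class to its inside, by layers
-/

set_option autoImplicit false
set_option linter.unusedVariables false

namespace Pool.Agent.H20.CL

open Pool.Agent.H68.BP Pool.Agent.H58.SF Pool.Agent.H53.NR
open Pool.Agent.H57.AR (tp ty Ty)
open Pool.Agent.H57.EQ (Cx)
open Pool.Agent.H57.LH (RmV tp_iff)
open Pool.Agent.H57.CN (lv_tp tp_comp)
open Pool.Agent.H44.KR (HB Tyi TpOn)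
open Pool.Agent.H44.FB (CptC EmbC)
open Pool.Agent.H72.CH
open Pool.Agent.H49.CL
open Function

section levels

variable {V : Type} {m : ℕ} {lv : V → V → ℕ}

theorem lv_trans (hp : PLev m lv) {j : ℕ} {a b c : V} (h1 : j ≤ lv a b) (h2 : j ≤ lv b c) :
    j ≤ lv a c := le_trans (le_min h1 h2) (hp.ult a b c)

/-- isosceles triangles -/
theorem lv_iso (hp : PLev m lv) {h : ℕ} {a b v : V} (h1 : h ≤ lv a b) (h2 : lv v b < h) :
    lv v a = lv v b := by
  apply le_antisymm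
  · by_contra hc
    push Not at hc
    have h3 : lv v b + 1 ≤ lv v a := hc
    have h4 : lv v b + 1 ≤ lv a b := by omega
    have := lv_trans hp h3 h4
    omega
  · have h3 : lv v b ≤ lv b a := by
      rw [hp.sym b a]
      omega
    exact lv_trans hp le_rfl h3

end levels

section

variable {V : Type} {ρ σ : Sig} {𝔹 : Str ρ V} {m : ℕ} {lv : V → V → ℕ} {𝔸 : Str σ V}
  {i h M : ℕ} {R : Set (Ty ρ (Fin 2))}

/-- the layered map whose top is exact -/
theorem inh_map (hV : HV 𝔹 m lv) (hLay : LayC 𝔹 lv M) (hKap : KapC 𝔸 𝔹 lv i R h)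
    {p₀ p q : V} {Q : Finset V} {g : V → V} (hg : IsHom 𝔸 𝔸 g)
    (hex : ExU 𝔹 lv i R g (Out lv h p₀ ∩ Off lv h Q))
    (hp : h ≤ lv p p₀) (hq : h ≤ lv q p₀) {Q' : Finset V} (hQ' : ∀ v ∈ Q', lv v p < h)
    {X : Type} [Finite X] {ht : X → ℕ} {f : X → V} {L : Set X} {xp xq : X}
    (hL : Lyr 𝔸 𝔹 lv i R h (M + 2) p q Q' ht f L xp xq) :
    ∃ f' : X → V, (∀ x y, lv (f' x) (f' y) = lv (f x) (f y)) ∧
      (∀ x, ht x = 0 → f' x = f x) ∧
      (∀ k, TpOn 𝔹 {x | ht x = k ∨ ht x = k + 1} f f') ∧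
      ∀ x ∈ L, ∀ y ∈ L, ht x = M + 2 → ht y = M + 2 →
        (i ≤ lv (g (f' x)) (g (f' y)) ↔ i ≤ lv (f' x) (f' y)) := by
  classical
  have hP := hV.lev.pl
  have hpq : h ≤ lv p q := by
    have h1 : h ≤ lv p₀ q := by rwa [hP.sym p₀ q]
    exact lv_trans hP hp h1
  obtain ⟨Λ, hΛ⟩ : ∃ Λ : Set X, ∀ x, x ∈ Λ ↔ x ∈ L ∧ ht x = M + 2 :=
    ⟨{x | x ∈ L ∧ ht x = M + 2}, fun x => Iff.rfl⟩
  have hfin : Finite Λ := inferInstance
  obtain ⟨n, ⟨e⟩⟩ := Finite.exists_equiv_fin Λ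
  obtain ⟨z, hz⟩ : ∃ z : Fin n → V, ∀ a, z a = f (e.symm a).1 := ⟨fun a => f (e.symm a).1, fun a => rfl⟩
  have hzc : ∀ a b, h ≤ lv (z a) (z b) := by
    intro a b
    rw [hz, hz]
    have h1 := hL.lp _ ((hΛ _).1 (e.symm a).2).1
    have h2 := hL.lp _ ((hΛ _).1 (e.symm b).2).1
    rw [hP.sym] at h2
    exact lv_trans hP h1 h2
  obtain ⟨z', hz1, hz2, hz3, hz4⟩ := hKap p₀ Q g hg hex n z {p, q} hzc
  obtain ⟨f₀, hf1, hf2⟩ : ∃ f₀ : X → V, (∀ x, x ∉ Λ → f₀ x = f x) ∧
      ∀ a, f₀ (e.symm a).1 = z' a := by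
    refine ⟨fun x => if hx : x ∈ Λ then z' (e ⟨x, hx⟩) else f x, fun x hx => dif_neg hx,
      fun a => ?_⟩
    show (if hx : (e.symm a).1 ∈ Λ then z' (e ⟨(e.symm a).1, hx⟩) else _) = _
    rw [dif_pos (e.symm a).2]
    show z' (e (e.symm a)) = z' a
    rw [Equiv.apply_symm_apply]
  have hmem : ∀ x ∈ Λ, ∃ a : Fin n, x = (e.symm a).1 := fun x hx =>
    ⟨e ⟨x, hx⟩, by rw [Equiv.symm_apply_apply]⟩
  have hnot : ∀ x, ht x = 0 → x ∉ Λ := by
    intro x hx hx'
    have := ((hΛ x).1 hx').2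
    omega
  have hzt := tp_iff.1 hz1
  obtain ⟨f', h1, h2, h3⟩ := hLay X ht (M + 2) f f₀ Λ le_rfl hL.hN (fun x hx => ((hΛ x).1 hx).2)
    (by
      constructor
      · intro a ha b hb
        rw [hf1 a (hnot a ha), hf1 b (hnot b hb)]
      · intro l w hw
        have : (fun i => f₀ (w i)) = fun i => f (w i) := funext fun i => hf1 _ (hnot _ (hw i))
        rw [this])
    (by
      constructor
      · intro a ha b hb
        obtain ⟨a', rfl⟩ := hmem a ha
        obtain ⟨b', rfl⟩ := hmem b hb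
        rw [hf2, hf2, ← hz, ← hz]
        exact (hzt.1 a' b').symm
      · intro l w hw
        choose w' hw' using fun i => hmem _ (hw i)
        have e1 : (fun i => f₀ (w i)) = fun i => z' (w' i) := funext fun i => by
          rw [hw' i, hf2]
        have e2 : (fun i => f (w i)) = fun i => z (w' i) := funext fun i => by
          rw [hw' i, hz]
        rw [e1, e2]
        exact (hzt.2 l w').symm)
    (by
      intro x y hx hy
      obtain ⟨a, rfl⟩ := hmem y hy
      have hy' := (hΛ _).1 hy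
      rw [hf1 x (hnot x hx), hf2]
      have k1 : h ≤ lv (z' a) p := by
        have h5 : h ≤ lv p₀ p := by rwa [hP.sym p₀ p]
        exact lv_trans hP (hz2 a) h5
      have k2 : h ≤ lv (f (e.symm a).1) p := hL.lp _ hy'.1
      rcases hL.h0 x hx with h5 | h5 | h5
      · rw [h5]
        have h6 : lv (z' a) p ≤ h := hz3 a p (by simp)
        have h7 : lv (f (e.symm a).1) p ≤ h := by
          have := hL.live _ hy'.1 xp (by rw [hL.hp.1, hy'.2]; omega)
          rwa [hL.hp.2.1] at this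
        rw [hP.sym p, hP.sym p]
        omega
      · rw [h5]
        have h6 : lv (z' a) q ≤ h := hz3 a q (by simp)
        have h7 : lv (f (e.symm a).1) q ≤ h := by
          have := hL.live _ hy'.1 xq (by rw [hL.hq.1, hy'.2]; omega)
          rwa [hL.hq.2.1] at this
        have h8 := lv_trans hP k1 hpq
        have h9 := lv_trans hP k2 hpq
        rw [hP.sym q, hP.sym q]
        omega
      · rw [lv_iso hP k1 (hQ' _ h5), lv_iso hP k2 (hQ' _ h5)])
    (by
      intro x y j hxy hj hjl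
      obtain ⟨j1, j2, j3⟩ := hL.far x y j hxy hj hjl
      refine ⟨⟨xp, hL.hp.1, ?_⟩, ?_⟩
      · rw [hL.hp.2.1]
        exact j2
      · obtain ⟨l, hl, hl'⟩ := hL.top
        refine ⟨l, (hΛ l).2 ⟨hl, hl'⟩, ?_⟩
        have h5 := hL.lp l hl
        rw [hP.sym] at h5
        exact lv_trans hP j3 (le_trans j1 h5))
  refine ⟨f', h1, fun x hx => ?_, h3, ?_⟩
  · rw [h2 x (Or.inl hx), hf1 x (hnot x hx)]
  · intro x hx y hy hx' hy'
    have hxΛ : x ∈ Λ := (hΛ x).2 ⟨hx, hx'⟩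
    have hyΛ : y ∈ Λ := (hΛ y).2 ⟨hy, hy'⟩
    obtain ⟨a, ha⟩ := hmem x hxΛ
    obtain ⟨b, hb⟩ := hmem y hyΛ
    rw [h2 x (Or.inr hxΛ), h2 y (Or.inr hyΛ), ha, hb, hf2, hf2, hz4 a b, lv_tp hV hz1 a b]

end

/-- Row INH. -/
theorem pf_INH : T_INH := by
  classical
  intro V ρ σ 𝔹 m lv 𝔸 i h M R hV hLay hLyr hKap hm p₀ Q g hg hex p hp q hq hpqR
  have hP := hV.lev.pl
  have hp' : h ≤ lv p p₀ := hp
  have hq' : h ≤ lv q p₀ := hq
  have hpq : h ≤ lv p q := by
    have h1 : h ≤ lv p₀ q := by rwa [hP.sym p₀ q]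
    exact lv_trans hP hp' h1
  obtain ⟨X, hX, ht, f, L, xp, xq, hL⟩ := hLyr p q (Q.filter fun v => lv v p < h) hpq
    (fun v hv => (Finset.mem_filter.1 hv).2)
  obtain ⟨f', h1, h2, h3, h4⟩ := inh_map hV hLay hKap hg hex hp' hq'
    (fun v hv => (Finset.mem_filter.1 hv).2) hL
  have hfp : f' xp = p := by rw [h2 xp hL.hp.1, hL.hp.2.1]
  have hfq : f' xq = q := by rw [h2 xq hL.hq.1, hL.hq.2.1]
  have key : ∀ j, j ≤ M + 2 →
      ExU 𝔹 lv i R g {y | ∃ x ∈ L, y = f' x ∧ ht x = M + 2 - j} := by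
    intro j
    induction j with
    | zero =>
      intro _
      rintro _ ⟨x, hx, rfl, hx'⟩ _ ⟨y, hy, rfl, hy'⟩ _
      exact h4 x hx y hy hx' hy'
    | succ j ih =>
      intro hj
      have ih' := ih (by omega)
      have e1 : M + 2 - (j + 1) + 1 = M + 2 - j := by omega
      have h5 := hL.prp (M + 2 - (j + 1)) (by omega) g f' hg (h3 _)
      rw [e1] at h5
      refine h5 ?_ ih'
      rintro x ⟨x, rfl, hx1, hx2⟩ y ⟨y, rfl, hy1, hy2⟩ hxy
      have hout : ∀ x, ht x = M + 2 - j → lv (f x) p < h → f' x ∈ Out lv h p₀ ∩ Off lv h Q := by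
        intro x hx1 hx2
        have h6 : lv (f' x) p < h := by
          rw [← hfp, h1, hL.hp.2.1]
          exact hx2
        constructor
        · show lv (f' x) p₀ < h
          by_contra hc
          push Not at hc
          have h7 : h ≤ lv p₀ p := by rwa [hP.sym p₀ p]
          have := lv_trans hP hc h7
          omega
        · intro v hv
          by_cases hvp : lv v p < h
          · obtain ⟨xv, hxv, hxv'⟩ := hL.hQ v (Finset.mem_filter.2 ⟨hv, hvp⟩)
            have h8 : f' xv = v := by rw [h2 xv hxv, hxv']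
            rw [← h8, h1, hxv']
            exact hL.off x (by omega) v (Finset.mem_filter.2 ⟨hv, hvp⟩)
          · by_contra hc
            push Not at hc hvp
            have := lv_trans hP hc hvp
            omega
      exact hex _ (hout x hx1 hx2) _ (hout y hy1 hy2) hxy
  have h5 := key (M + 2) le_rfl
  rw [Nat.sub_self] at h5
  exact h5 p ⟨xp, hL.hp.2.2, hfp.symm, hL.hp.1⟩ q ⟨xq, hL.hq.2.2, hfq.symm, hL.hq.1⟩ hpqR

end Pool.Agent.H20.CL
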