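import Pool.Agent.H49.CL.Targets
import Pool.Agent.H57.CN.Basics

/-!
# Row RLR of cl_modules: thresholds on copies in a class
-/

set_option autoImplicit false
set_option linter.unusedVariables false

namespace Pool.Agent.H20.CL

open Pool.Agent.H68.BP Pool.Agent.H58.SF Pool.Agent.H53.NR
open Pool.Agent.H57.AR (tp ty Ty)
open Pool.Agent.H57.LH (RmV tp_iff)
open Pool.Agent.H57.CN (lv_tp tp_comp)
open Pool.Agent.H44.KR (HB Tyi TpOn)
open Pool.Agent.H44.FB (CptC EmbC)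
open Pool.Agent.H72.CH
open Pool.Agent.H49.CL
open Function

section

variable {V N : Type} {ρ δ : Sig} {𝔹 : Str ρ V} {m : ℕ} {lv : V → V → ℕ} {𝔻 : Str δ N}
  {st : N → Fin m} {β : (Fin m → N) → V}

/-- the type of one element -/
theorem ty_of_tp {𝔹 : Str ρ V} {x y : V} (h : tp 𝔹 (fun _ : Unit => x) = tp 𝔹 (fun _ : Unit => y)) :
    ty 𝔹 x = ty 𝔹 y := by
  funext l
  exact propext ((tp_iff.1 h).2 l (fun _ => ()))

theorem tp_of_ty {𝔹 : Str ρ V} {x y : V} (h : ty 𝔹 x = ty 𝔹 y) :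
    tp 𝔹 (fun _ : Unit => x) = tp 𝔹 (fun _ : Unit => y) :=
  tp_iff.2 ⟨fun _ _ => ⟨fun _ => rfl, fun _ => rfl⟩, fun l _ => iff_of_eq (congrFun h l)⟩

/-- there are flags -/
theorem ex_flag (hV : HV 𝔹 m lv) (hN : Nm 𝔹 m lv 𝔻 st β) : Nonempty (Fl st) := by
  obtain ⟨p⟩ := hV.ne
  obtain ⟨x, -, hx, -⟩ := hN.uni (Fin m) (fun i => i) (fun _ => p) (by
    intro w w' j hj
    have h1 : w.1 = w'.1 := funext fun i => (w.2 i).trans (w'.2 i).symm
    rw [hV.lev.pl.self, h1]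
    exact ⟨fun _ _ _ => rfl, fun _ => hj⟩)
  exact ⟨⟨x, hx⟩⟩

/-- names of a tuple, over the flag `π` -/
theorem names (hV : HV 𝔹 m lv) (hN : Nm 𝔹 m lv 𝔻 st β) (hE : EmbC 𝔻)
    (hX : NexC 𝔹 m lv st β) (π : Fl st) {n : ℕ} (z : Fin n → V) (u : Fin n) :
    ∃ y : Fin n → Fl st,
      (∀ c d (l : Fin m), (y c).1 l = (y d).1 l ↔ (l : ℕ) < lv (z c) (z d)) ∧
      tp 𝔹 (fun c => β (y c).1) = tp 𝔹 z ∧ y u = π := by
  classical
  have hP := hV.lev.pl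
  obtain ⟨w, hw, hws⟩ : ∃ w : Fin n → Fin m → Fin m × Set (Fin n),
      (∀ c d l, w c l = w d l ↔ (l : ℕ) < lv (z c) (z d)) ∧ ∀ c l, (w c l).1 = l := by
    refine ⟨fun c l => (l, {d | (l : ℕ) < lv (z c) (z d)}), fun c d l => ?_, fun c l => rfl⟩
    constructor
    · intro h
      have h1 : {e | (l : ℕ) < lv (z c) (z e)} = {e | (l : ℕ) < lv (z d) (z e)} :=
        congrArg Prod.snd h
      have h2 : d ∈ {e | (l : ℕ) < lv (z d) (z e)} := by
        show (l : ℕ) < lv (z d) (z d)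
        rw [hP.self]
        exact l.2
      rw [← h1] at h2
      exact h2
    · intro h
      have h1 : {e | (l : ℕ) < lv (z c) (z e)} = {e | (l : ℕ) < lv (z d) (z e)} := by
        ext e
        show (l : ℕ) < lv (z c) (z e) ↔ (l : ℕ) < lv (z d) (z e)
        have h3 := hP.ult (z c) (z d) (z e)
        have h4 := hP.ult (z d) (z c) (z e)
        rw [hP.sym (z d) (z c)] at h4
        constructor
        · intro h5
          exact lt_of_lt_of_le (lt_min h h5) h4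
        · intro h5
          exact lt_of_lt_of_le (lt_min h h5) h3
      show (l, {e | (l : ℕ) < lv (z c) (z e)}) = (l, {e | (l : ℕ) < lv (z d) (z e)})
      rw [h1]
  have hag : ∀ c d j, j ≤ m → (Agr j (w c) (w d) ↔ j ≤ lv (z c) (z d)) := by
    intro c d j hj
    constructor
    · intro h
      rcases Nat.eq_zero_or_pos j with h0 | h0
      · omega
      · have h1 := (hw c d ⟨j - 1, by omega⟩).1 (h ⟨j - 1, by omega⟩ (by
          show j - 1 < j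
          omega))
        have h2 : j - 1 < lv (z c) (z d) := h1
        omega
    · intro h i hi
      exact (hw c d i).2 (lt_of_lt_of_le hi h)
  obtain ⟨s, hs⟩ : ∃ s : Fin m × Set (Fin n) → Fin m, ∀ p, s p = p.1 := ⟨Prod.fst, fun _ => rfl⟩
  obtain ⟨w', hw'⟩ : ∃ w' : Fin n → Fl s, ∀ c, (w' c).1 = w c :=
    ⟨fun c => ⟨w c, fun i => (hs _).trans (hws c i)⟩, fun c => rfl⟩
  obtain ⟨g, hg⟩ : ∃ g : Fl s → V, ∀ c, g (w' c) = z c := by
    refine ⟨fun f => if hf : ∃ c, w' c = f then z hf.choose else z u, fun c => ?_⟩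
    have hf : ∃ c', w' c' = w' c := ⟨c, rfl⟩
    show (if hf : ∃ c', w' c' = w' c then z hf.choose else z u) = z c
    rw [dif_pos hf]
    have h1 : w hf.choose = w c := by
      rw [← hw', ← hw', hf.choose_spec]
    apply hV.lev.eq
    apply le_antisymm (hP.le _ _)
    refine (hag _ _ m le_rfl).1 ?_
    rw [h1]
    exact fun _ _ => rfl
  obtain ⟨x, hx1, hx2, hx3⟩ := hX (Fin m × Set (Fin n)) s (Set.range w') g Unit
    (fun _ => Set.range w')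
    (by
      rintro _ ⟨c, rfl⟩ _ ⟨d, rfl⟩ j hj h
      rw [hg, hg]
      rw [hw', hw'] at h
      exact (hag c d j hj).1 h)
    (fun _ => subset_rfl)
    (by
      rintro _ _ ⟨c, rfl⟩ _ ⟨d, rfl⟩ j hj h
      rw [hg, hg] at h
      rw [hw', hw']
      exact (hag c d j hj).2 h)
  have hx3' := hx3 ()
  have hst : ∀ c l, st (x (w c l)) = l := fun c l => by rw [hx2, hs, hws]
  have htp : tp 𝔹 (fun c => β (fun i => x (w c i))) = tp 𝔹 z := by
    refine tp_iff.2 ⟨fun c d => ?_, fun l v => ?_⟩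
    · have h1 := hx3'.1 (w' c) ⟨c, rfl⟩ (w' d) ⟨d, rfl⟩
      rw [hg, hg] at h1
      have h2 : ∀ c, (fun w : Fl s => β fun i => x (w.1 i)) (w' c) = β (fun i => x (w c i)) :=
        fun c => by
          show β (fun i => x ((w' c).1 i)) = _
          rw [hw']
      rw [h2, h2] at h1
      exact h1.symm
    · have h1 := hx3'.2 l (fun i => w' (v i)) (fun i => ⟨v i, rfl⟩)
      simp only [hg, hw'] at h1
      exact h1.symm
  obtain ⟨ε, hε1, hε2⟩ := hE (Fin m) (fun l => x (w u l)) π.1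
    (hN.flg ⟨fun l => x (w u l), hst u⟩ π)
  have hεs : ∀ p, st (ε p) = st p := fun p =>
    (hN.srt _ _).1 (ty_of_tp (hε1 Unit (fun _ => p)))
  have hεi : ∀ p q, ε p = ε q ↔ p = q := fun p q =>
    (tp_iff.1 (hε1 Bool (fun b => if b = true then p else q))).1 true false
  refine ⟨fun c => ⟨fun l => ε (x (w c l)), fun l => by rw [hεs, hst]⟩, fun c d l => ?_, ?_, ?_⟩
  · show ε (x (w c l)) = ε (x (w d l)) ↔ _
    rw [hεi, hx1.eq_iff, hw]
  · have h1 := hN.inv _ x (fun a => ε (x a)) (hε1 _ x).symm (Fin n) w hst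
    exact h1.symm.trans htp
  · exact Subtype.ext (funext fun l => hε2 l)

/-- the copy given by the map `φ` on the names -/
theorem copy (hV : HV 𝔹 m lv) (hN : Nm 𝔹 m lv 𝔻 st β) {π : Fl st} {η : V → V}
    (hη : ∀ (J : Type) (a : J → V), tp 𝔹 (fun j => η (a j)) = tp 𝔹 a) {h : ℕ} (hh : h ≤ m)
    {φ : N → N} {J : Finset N} (hφ : TpOn 𝔻 (J : Set N) id φ)
    (hφπ : ∀ i : Fin m, (i : ℕ) < h → π.1 i ∈ J → φ (π.1 i) = π.1 i)
    {n : ℕ} {z : Fin n → V} {u : Fin n} {y : Fin n → Fl st}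
    (hy : tp 𝔹 (fun c => β (y c).1) = tp 𝔹 z) (hyu : y u = π) (hJ : ∀ c l, (y c).1 l ∈ J) :
    tp 𝔹 (fun c => η (β (fun i => φ ((y c).1 i)))) = tp 𝔹 z ∧
      h ≤ lv (η (β (fun i => φ ((y u).1 i)))) (η (β π.1)) := by
  have h1 : tp 𝔻 (fun p : Fin n × Fin m => (y p.1).1 p.2) =
      tp 𝔻 (fun p : Fin n × Fin m => φ ((y p.1).1 p.2)) :=
    tp_iff.2 ⟨fun a b => hφ.1 _ (hJ _ _) _ (hJ _ _), fun l w => hφ.2 l _ fun i => hJ _ _⟩
  have hst : ∀ p : Fin n × Fin m, st (φ ((y p.1).1 p.2)) = p.2 := by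
    intro p
    have h2 : tp 𝔻 (fun _ : Unit => φ ((y p.1).1 p.2)) = tp 𝔻 (fun _ : Unit => (y p.1).1 p.2) :=
      (tp_comp h1 (fun _ : Unit => p)).symm
    exact ((hN.srt _ _).1 (ty_of_tp h2)).trans ((y p.1).2 p.2)
  constructor
  · have h2 := hN.inv _ _ _ h1 (Fin n) (fun c i => (c, i)) (fun c i => (y c).2 i)
    exact (hη _ _).trans (h2.symm.trans hy)
  · have h3 := lv_tp hV (hη Bool (fun b => if b = true then β (fun i => φ ((y u).1 i)) else β π.1))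
      true false
    have h3' : lv (η (β (fun i => φ ((y u).1 i)))) (η (β π.1)) =
      lv (β (fun i => φ ((y u).1 i))) (β π.1) := h3
    rw [h3']
    refine (hN.lev ⟨fun i => φ ((y u).1 i), fun i => hst (u, i)⟩ π h hh).2 ?_
    intro i hi
    show φ ((y u).1 i) = π.1 i
    have h4 := hJ u i
    rw [hyu] at h4 ⊢
    exact hφπ i hi h4

end

/-- Row RLR. -/
theorem pf_RLR : T_RLR := by
  classical
  intro V N ρ δ 𝔹 m lv 𝔻 st β hV hN hEB hED hX hC i h g p₀ hh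
  have hP := hV.lev.pl
  obtain ⟨π⟩ := ex_flag hV hN
  obtain ⟨η, hη1, hη2⟩ := hEB Unit (fun _ => β π.1) (fun _ => p₀) (tp_of_ty (hV.one _ _))
  have hη2' : η (β π.1) = p₀ := hη2 ()
  by_contra hcon
  push Not at hcon
  choose n z u hbad using hcon
  choose y hy1 hy2 hy3 using fun κ => names hV hN hED hX π (z κ) (u κ)
  obtain ⟨J, hJ⟩ : ∃ J : Finset N, ∀ κ ≤ m + 1, ∀ c l, (y κ c).1 l ∈ J := by
    refine ⟨(Finset.range (m + 2)).biUnion fun κ =>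
      Finset.univ.image fun p : Fin (n κ) × Fin m => (y κ p.1).1 p.2, fun κ hκ c l => ?_⟩
    refine Finset.mem_biUnion.2 ⟨κ, Finset.mem_range.2 (by omega), ?_⟩
    exact Finset.mem_image.2 ⟨(c, l), Finset.mem_univ _, rfl⟩
  obtain ⟨φ, hφ1, hφ2, hφ3⟩ := hC V lv hP (fun w => g (η (β w))) π h J
  obtain ⟨κ, hκ1, hκ2, hκ3⟩ : ∃ κ ≤ m + 1,
      (κ ≤ m → ∃ a b : Fl st, (∀ i, a.1 i ∈ J ∧ b.1 i ∈ J) ∧ Agr h π.1 a.1 ∧ Agr h π.1 b.1 ∧
        (∀ k : Fin m, a.1 k = b.1 k ↔ (k : ℕ) < κ) ∧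
        i ≤ lv (g (η (β fun i => φ (a.1 i)))) (g (η (β fun i => φ (b.1 i))))) ∧
      ∀ l ≤ m, (∃ a b : Fl st, (∀ i, a.1 i ∈ J ∧ b.1 i ∈ J) ∧ Agr h π.1 a.1 ∧ Agr h π.1 b.1 ∧
        (∀ k : Fin m, a.1 k = b.1 k ↔ (k : ℕ) < l) ∧
        i ≤ lv (g (η (β fun i => φ (a.1 i)))) (g (η (β fun i => φ (b.1 i))))) → κ ≤ l := by
    obtain ⟨P, hPdef⟩ : ∃ P : ℕ → Prop, ∀ l, P l ↔ (l ≤ m → ∃ a b : Fl st,
        (∀ i, a.1 i ∈ J ∧ b.1 i ∈ J) ∧ Agr h π.1 a.1 ∧ Agr h π.1 b.1 ∧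
        (∀ k : Fin m, a.1 k = b.1 k ↔ (k : ℕ) < l) ∧
        i ≤ lv (g (η (β fun i => φ (a.1 i)))) (g (η (β fun i => φ (b.1 i))))) :=
      ⟨_, fun l => Iff.rfl⟩
    have hex : ∃ l, P l := ⟨m + 1, (hPdef _).2 fun h => absurd h (by omega)⟩
    refine ⟨Nat.find hex, Nat.find_min' hex ((hPdef _).2 fun h => absurd h (by omega)),
      (hPdef _).1 (Nat.find_spec hex), fun l hl hab => Nat.find_min' hex ((hPdef l).2 fun _ => hab)⟩
  obtain ⟨h1, h2⟩ := copy hV hN hη1 hh hφ1 hφ2 (hy2 κ) (hy3 κ) (hJ κ hκ1)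
  rw [hη2'] at h2
  have hcls : ∀ a, h ≤ lv (z κ a) (z κ (u κ)) → Agr h π.1 (y κ a).1 := by
    intro a ha k hk
    have h3 := (hy1 κ a (u κ) k).2 (lt_of_lt_of_le hk ha)
    rw [hy3 κ] at h3
    exact h3.symm
  obtain ⟨a, b, ha, hb, hab⟩ := hbad κ _ h1 h2
  have hkey : i ≤ lv (g (η (β fun i => φ ((y κ a).1 i)))) (g (η (β fun i => φ ((y κ b).1 i)))) ↔
      κ ≤ lv (z κ a) (z κ b) := by
    constructor
    · intro h3
      exact hκ3 _ (hP.le _ _) ⟨y κ a, y κ b, fun i => ⟨hJ κ hκ1 a i, hJ κ hκ1 b i⟩,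
        hcls a ha, hcls b hb, fun k => hy1 κ a b k, h3⟩
    · intro h3
      obtain ⟨a', b', k1, k2, k3, k4, k5⟩ := hκ2 (h3.trans (hP.le _ _))
      refine le_trans k5 ?_
      exact hφ3 κ a' b' (y κ a) (y κ b)
        (fun i => ⟨(k1 i).1, (k1 i).2, hJ κ hκ1 a i, hJ κ hκ1 b i⟩) k2 k3 (hcls a ha) (hcls b hb)
        hh (h3.trans (hP.le _ _)) k4 (fun k hk => (hy1 κ a b k).2 (lt_of_lt_of_le hk h3))
  rcases hab with ⟨k1, k2⟩ | ⟨k1, k2⟩
  · exact absurd (hkey.1 k1) (not_le.2 k2)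
  · exact absurd (hkey.2 k2) (not_le.2 k1)

end Pool.Agent.H20.CL
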